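import Pool.Agent.Lib.MP_f91407_an.Defs

/-!
# The polynomials `c (1 + r z)(1 + μ z)^m` and the class they generate
-/

namespace Pool.Agent.Lib.MP_f91407_an

open NNReal Polynomial

/-- The coefficient of `z^j` in `c (1 + r z)(1 + μ z)^m`. -/
noncomputable def linPow (c r μ : ℝ≥0) (m : ℕ) (j : ℕ) : ℝ≥0 :=
  (C c * (1 + C r * X) * (1 + C μ * X) ^ m : ℝ≥0[X]).coeff j

/-- The smallest class of coefficient sequences which contains those of the polynomials
`c (1 + r z)(1 + μ z)^m`, `c > 0`, `r, μ ≥ 0`, `m ∈ ℕ`, and is closed under termwise products and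
under termwise real powers with exponent at least `2`. -/
inductive Cls : (ℕ → ℝ≥0) → Prop
  | base (c r μ : ℝ≥0) (m : ℕ) (hc : 0 < c) : Cls (linPow c r μ m)
  | mul (a b : ℕ → ℝ≥0) (ha : Cls a) (hb : Cls b) : Cls fun j => a j * b j
  | pow (a : ℕ → ℝ≥0) (q : ℝ) (hq : 2 ≤ q) (ha : Cls a) : Cls fun j => a j ^ q

end Pool.Agent.Lib.MP_f91407_an
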