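import Pool.Agent.Lib.MP_f91407_an.Mg.G031

/-!
# Necessity, using only the polynomials `c (1 + μ z)^n` and real-rooted quadratics

The proofs are those of the files `Mono`, `NoJump`, `Power`, `Main` (which treat the full class).
-/

namespace Pool.Agent.Lib.MP_f91407_an

open Polynomial NNReal

/-- The restricted property: only binomial sequences and real-rooted quadratics are used. -/
structure PresB (f : ℝ → ℝ) : Prop where
  zero : f 0 = 0
  nonneg : ∀ x, 0 ≤ f x
  bin : ∀ (n : ℕ) {c μ : ℝ}, 0 < c → 0 ≤ μ → RRn n fun j => f (bseq n c μ j)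
  quadr : ∀ {x b w : ℝ}, 0 < x → 0 < b → 0 < w → 4 * x * w ≤ b ^ 2 →
    RRn 2 fun j => f (if j = 0 then x else if j = 1 then b else w)

variable {f : ℝ → ℝ}

theorem PresB.pos (hf : PresB f) {x : ℝ} (hx : 0 < x) : 0 < f x := by
  have h := hf.bin 0 hx le_rfl
  rcases (hf.nonneg x).lt_or_eq with h1 | h1
  · exact h1
  · exfalso
    have := h Complex.I (by simp [bseq, ← h1])
    simp at this

/-- Log-concavity of `f` along binomial sequences. -/
theorem PresB.tn2_bseq (hf : PresB f) {n : ℕ} {c μ : ℝ} (hc : 0 < c) (hμ : 0 ≤ μ) {i j : ℕ}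
    (hij : i ≤ j) (hj : j + 1 ≤ n) :
    f (bseq n c μ i) * f (bseq n c μ (j + 1)) ≤ f (bseq n c μ (i + 1)) * f (bseq n c μ j) := by
  have h := (RRn.tn2 (fun j => hf.nonneg _)
    (hf.bin n hc hμ)).2 i j hij
  rw [coeff_poly, coeff_poly, coeff_poly, coeff_poly, if_pos (by omega), if_pos hj,
    if_pos (by omega), if_pos (by omega)] at h
  exact h

/-- Quadratic polynomials: `4 f(x) f(w) ≤ f(b)^2` if `4 x w ≤ b^2`. -/
theorem PresB.quad (hf : PresB f) {x b w : ℝ} (hx : 0 < x) (hb : 0 < b) (hw : 0 < w)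
    (h : 4 * x * w ≤ b ^ 2) : 4 * f x * f w ≤ f b ^ 2 := by
  have hr2 := hf.quadr hx hb hw h
  by_contra hlt
  push Not at hlt
  have fx := hf.pos hx
  have fb := hf.pos hb
  have fw := hf.pos hw
  set D := 4 * f x * f w - f b ^ 2 with hD
  have hDpos : 0 < D := by linarith
  have hs : Real.sqrt D ^ 2 = D := Real.sq_sqrt hDpos.le
  have hz := hr2 (⟨-f b / (2 * f w), Real.sqrt D / (2 * f w)⟩ : ℂ) (by
    simp [Finset.sum_range_succ]
    apply Complex.ext
    · simp [pow_two]
      field_simp
      nlinarith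
    · simp [pow_two]
      field_simp
      ring)
  simp at hz
  rcases hz with h1 | h1
  · rw [Real.sqrt_eq_zero hDpos.le] at h1
    exact hDpos.ne' h1
  · exact fw.ne' h1

theorem PresB.two_mul (hf : PresB f) {x b : ℝ} (hx : 0 < x) (hb : 2 * x ≤ b) :
    2 * f x ≤ f b := by
  have h := hf.quad hx (by linarith) hx (b := b) (by nlinarith)
  have fx := hf.pos hx
  have fb := hf.pos (show 0 < b by linarith)
  nlinarith [abs_le_of_sq_le_sq' (by nlinarith : (2 * f x) ^ 2 ≤ f b ^ 2) fb.le]

/-- The middle three coefficients of a binomial sequence of even degree. -/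
theorem PresB.mid (hf : PresB f) {x w : ℝ} (hx : 0 < x) (hw : 0 < w) (m : ℕ) :
    f x * f w ≤ f (Real.sqrt (x * w) * ((m + 2) / (m + 1))) ^ 2 := by
  set μ := Real.sqrt (w / x) with hμ
  have hμ0 : 0 < μ := Real.sqrt_pos.mpr (by positivity)
  have hμ2 : μ ^ 2 = w / x := Real.sq_sqrt (by positivity)
  set n := 2 * m + 2 with hn
  have hCm : 0 < (n.choose m : ℝ) := by
    exact_mod_cast Nat.choose_pos (by omega)
  set c := x / (n.choose m * μ ^ m) with hc
  have hc0 : 0 < c := by positivity
  have e0 : bseq n c μ m = x := by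
    unfold bseq; rw [hc]; field_simp
  have e1 : bseq n c μ (m + 1) = Real.sqrt (x * w) * ((m + 2) / (m + 1)) := by
    have h1 : (n.choose (m + 1) : ℝ) * (m + 1) = n.choose m * (m + 2) := by
      have := Nat.choose_succ_right_eq n m
      have h2 : n - m = m + 2 := by omega
      rw [h2] at this
      exact_mod_cast this
    have h2 : Real.sqrt (x * w) = x * μ := by
      rw [hμ]
      rw [show x * w = x ^ 2 * (w / x) by field_simp]
      rw [Real.sqrt_mul (by positivity), Real.sqrt_sq hx.le]
    have h3 : (n.choose (m + 1) : ℝ) = n.choose m * (m + 2) / (m + 1) := by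
      field_simp; linarith
    unfold bseq
    rw [h3, h2, hc, pow_succ]
    field_simp
  have e2 : bseq n c μ (m + 2) = w := by
    have h1 : n.choose (m + 2) = n.choose m := by
      rw [← Nat.choose_symm (show m ≤ n by omega)]
      congr 1
      omega
    unfold bseq
    rw [h1, hc, pow_add, hμ2]
    field_simp
  have h := hf.tn2_bseq (n := n) hc0 hμ0.le (le_refl m |>.trans (Nat.le_succ m)) (by omega)
  rw [show m.succ + 1 = m + 2 from rfl, e0, e2, show m.succ = m + 1 from rfl, e1] at h
  rw [pow_two]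
  exact h

theorem PresB.mono_lt (hf : PresB f) {x y : ℝ} (hx : 0 < x) (hxy : x < y) : f x ≤ f y := by
  by_contra hlt
  push Not at hlt
  have fx := hf.pos hx
  have fy := hf.pos (hx.trans hxy)
  set θ := f y / f x with hθ
  have hθ1 : θ < 1 := by rw [hθ, div_lt_one fx]; exact hlt
  have hθ0 : 0 < θ := by positivity
  set ρ := y / x with hρ
  have hρ1 : 1 < ρ := by rw [hρ, one_lt_div hx]; exact hxy
  clear_value ρ
  obtain ⟨K, hK⟩ := pow_unbounded_of_one_lt 4 hρ1
  -- choose `m`
  have hlim : Filter.Tendsto (fun m : ℕ => (((m : ℝ) + 2) / (m + 1)) ^ (K * (K - 1)))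
      Filter.atTop (nhds (1 ^ (K * (K - 1)))) := by
    apply Filter.Tendsto.pow
    have h1 : Filter.Tendsto (fun m : ℕ => 1 + 1 / ((m : ℝ) + 1)) Filter.atTop (nhds (1 + 0)) :=
      tendsto_const_nhds.add tendsto_one_div_add_atTop_nhds_zero_nat
    rw [add_zero] at h1
    refine h1.congr fun m => ?_
    field_simp
    ring
  rw [one_pow] at hlim
  obtain ⟨m, hm⟩ := (hlim.eventually (gt_mem_nhds (show (1 : ℝ) < 2 by norm_num))).exists
  set l : ℝ := ((m : ℝ) + 2) / (m + 1) with hl
  have hl0 : 0 < l := by positivity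
  clear_value l
  set s : ℕ → ℝ := fun k => x * ρ ^ k / l ^ (k * (k - 1)) with hs
  have hρ0 : 0 < ρ := by linarith
  have hs0 : ∀ k, 0 < s k := fun k => by simp only [hs]; positivity
  have hsk : ∀ k, Real.sqrt (s k * s (k + 2)) * l = s (k + 1) := by
    intro k
    have e1 : s k * s (k + 2) = (x * ρ ^ (k + 1) / l ^ (k * k + k + 1)) ^ 2 := by
      simp only [hs]
      have : l ^ (k * (k - 1)) * l ^ ((k + 2) * (k + 2 - 1)) = (l ^ (k * k + k + 1)) ^ 2 := by
        rw [← pow_add, ← pow_mul]
        congr 1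
        cases k with
        | zero => rfl
        | succ k => simp only [Nat.succ_sub_one]; ring_nf
      rw [div_mul_div_comm, this, div_pow]
      congr 1
      ring
    rw [e1, Real.sqrt_sq (by positivity)]
    simp only [hs, Nat.add_sub_cancel]
    rw [show (k + 1) * k = k * k + k by ring, pow_succ l (k * k + k)]
    field_simp
  have hmid : ∀ k, f (s k) * f (s (k + 2)) ≤ f (s (k + 1)) ^ 2 := by
    intro k
    have := hf.mid (hs0 k) (hs0 (k + 2)) m
    rwa [← hl, hsk k] at this
  have hstep : ∀ k, f (s (k + 1)) ≤ θ * f (s k) := by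
    intro k
    induction k with
    | zero =>
      have e0 : s 0 = x := by simp [hs]
      have e1 : s 1 = y := by simp [hs, hρ]; field_simp
      rw [show (0 + 1) = 1 from rfl, e0, e1, hθ]
      field_simp
      exact le_rfl
    | succ k ih =>
      have p0 := hf.pos (hs0 k)
      have p1 := hf.pos (hs0 (k + 1))
      have h1 := hmid k
      have h2 : f (s (k + 1)) ^ 2 ≤ f (s (k + 1)) * (θ * f (s k)) := by
        rw [pow_two]; exact mul_le_mul_of_nonneg_left ih p1.le
      have h3 : f (s k) * f (s (k + 2)) ≤ f (s k) * (θ * f (s (k + 1))) := by nlinarith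
      exact le_of_mul_le_mul_left h3 p0
  have hdec : ∀ k, f (s k) ≤ f x := by
    intro k
    induction k with
    | zero => simp [hs]
    | succ k ih =>
      have p0 := hf.pos (hs0 k)
      nlinarith [hstep k]
  have hsK : 2 * x ≤ s K := by
    simp only [hs]
    rw [le_div_iff₀ (by positivity)]
    nlinarith [hm, hK, mul_pos hx (pow_pos hl0 (K * (K - 1)))]
  have h1 := hf.two_mul hx hsK
  have h2 := hdec K
  linarith

theorem PresB.mono (hf : PresB f) {x y : ℝ} (hx : 0 < x) (hxy : x ≤ y) : f x ≤ f y := by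
  rcases hxy.lt_or_eq with h | h
  · exact hf.mono_lt hx h
  · rw [h]

theorem PresB.noJump (hf : PresB f) {x l θ : ℝ} (hx : 0 < x) (hl : 1 < l) (h0 : 0 < θ)
    (h1 : θ < 1) : θ ^ 3 * f x ^ 2 < f (l * x) * f (x / l) := by
  by_contra hcon
  push Not at hcon
  have hlx : 0 < l * x := by positivity
  have fx := hf.pos hx
  have flx := hf.pos hlx
  set q := f (l * x) / f x with hq
  have hq0 : 0 < q := by positivity
  have hq1 : 1 ≤ q := by
    rw [hq, one_le_div fx]
    exact hf.mono hx (by nlinarith)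
  set K := 2 * (θ / (1 - θ) ^ 2) with hK
  have h1θ : 0 < 1 - θ := by linarith
  have hK0 : 0 < K := by positivity
  obtain ⟨I, hI⟩ := exists_nat_gt (1 + K + 4 * K * q / (θ * (1 - θ)))
  obtain ⟨m, hm⟩ := exists_nat_gt ((l + 1) * (I + 1) / (l - 1))
  have hl1 : 0 < l - 1 := by linarith
  rw [div_lt_iff₀ hl1] at hm
  have hmI : (I : ℝ) + 1 < m := by
    have : (l - 1) * ((I : ℝ) + 1) < (l - 1) * m := by nlinarith [Nat.cast_nonneg (α := ℝ) I]
    exact lt_of_mul_lt_mul_left this hl1.le
  have hmI' : I + 1 < m := by exact_mod_cast hmI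
  have hm0 : (0 : ℝ) < m := by linarith [Nat.cast_nonneg (α := ℝ) I]
  set μ := l * (m + 1) / m with hμ
  have hμ0 : 0 < μ := by positivity
  set n := 2 * m with hn
  have hnR : (n : ℝ) = 2 * m := by rw [hn]; push_cast; ring
  have hCm : 0 < (n.choose m : ℝ) := by exact_mod_cast Nat.choose_pos (by omega)
  set c := x / (n.choose m * μ ^ m) with hc
  have hc0 : 0 < c := by positivity
  set a := bseq n c μ with ha
  have ham : a m = x := by rw [ha]; unfold bseq; rw [hc]; field_simp
  have hrec : ∀ j, j ≤ n → a (j + 1) * (j + 1) = a j * μ * ((n : ℝ) - j) :=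
    fun j hj => bseq_succ n c μ hj
  have hapos : ∀ j, j ≤ n → 0 < a j := by
    intro j hj
    rw [ha]; unfold bseq
    have : 0 < (n.choose j : ℝ) := by exact_mod_cast Nat.choose_pos hj
    positivity
  have ham1 : a (m + 1) = l * x := by
    have h := hrec m (by omega)
    rw [ham, hnR, hμ] at h
    have h' : a (m + 1) * (m + 1) = (l * x) * (m + 1) := by
      rw [h]; field_simp; ring
    exact mul_right_cancel₀ (by positivity) h'
  have ham2 : a (m - 1) ≤ x / l := by
    have h := hrec (m - 1) (by omega)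
    rw [show m - 1 + 1 = m by omega, ham, hnR, hμ, Nat.cast_sub (by omega), Nat.cast_one] at h
    rw [le_div_iff₀ (by linarith)]
    have h' : x * m ^ 2 = (a (m - 1) * l) * (m + 1) ^ 2 := by
      have : x * m = a (m - 1) * (l * (m + 1) / m) * (m + 1) := by
        have e1 : (m : ℝ) - 1 + 1 = m := by ring
        have e2 : 2 * (m : ℝ) - (m - 1) = m + 1 := by ring
        rw [e1, e2] at h
        exact h
      field_simp at this
      nlinarith
    have hp := hapos (m - 1) (by omega)
    have hp2 : 0 < a (m - 1) * l := by positivity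
    by_contra hlt
    push Not at hlt
    nlinarith [mul_pos hm0 hm0, mul_pos hp2 hm0]
  have hinc : ∀ j, j < m + I + 1 → a j ≤ a (j + 1) := by
    intro j hj
    have hjn : j ≤ n := by omega
    have h := hrec j hjn
    have hp := hapos j hjn
    have hjR : (j : ℝ) ≤ m + I := by exact_mod_cast (by omega : j ≤ m + I)
    have hlμ : l ≤ μ := by
      rw [hμ, le_div_iff₀ hm0]; nlinarith
    have h2 : (j : ℝ) + 1 ≤ μ * ((n : ℝ) - j) := by
      rw [hnR]
      have e1 : (m : ℝ) - I ≤ 2 * m - j := by linarith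
      have e2 : 0 < (m : ℝ) - I := by linarith
      have e3 : l * ((m : ℝ) - I) ≤ μ * (2 * m - j) :=
        mul_le_mul hlμ e1 e2.le hμ0.le
      nlinarith [Nat.cast_nonneg (α := ℝ) I]
    have h3 : a j * ((j : ℝ) + 1) ≤ a (j + 1) * ((j : ℝ) + 1) := by
      rw [h, mul_assoc]
      exact mul_le_mul_of_nonneg_left h2 hp.le
    exact le_of_mul_le_mul_right h3 (by positivity)
  -- the image polynomial
  set b : ℕ → ℝ := fun j => f (a j) with hb
  have hb0 : ∀ j, 0 ≤ b j := fun j => hf.nonneg _
  have hbpos : ∀ j, j ≤ n → 0 < b j := fun j hj => hf.pos (hapos j hj)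
  have hRR : RRn n b := hf.bin n hc0 hμ0.le
  have htn : ∀ i j, i ≤ j → j + 1 ≤ n → b i * b (j + 1) ≤ b (i + 1) * b j :=
    fun i j hij hj => hf.tn2_bseq hc0 hμ0.le hij hj
  have hbm : b m = f x := by simp only [hb]; rw [ham]
  have hbm1 : b (m + 1) = q * b m := by
    simp only [hb]; rw [ham, ham1, hq]; field_simp
  have hbm2 : q * b (m - 1) ≤ θ ^ 3 * b m := by
    have e1 : b (m - 1) ≤ f (x / l) := hf.mono (hapos _ (by omega)) ham2
    have e2 : f (l * x) * b (m - 1) ≤ θ ^ 3 * f x ^ 2 :=
      (mul_le_mul_of_nonneg_left e1 flx.le).trans hcon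
    rw [hbm, hq, div_mul_eq_mul_div, div_le_iff₀ fx]
    nlinarith
  have hR : ∀ j, m ≤ j → j + 1 ≤ n → b (j + 1) ≤ q * b j := by
    intro j hmj hj
    have h := htn m j hmj hj
    rw [hbm1] at h
    have hp := hbpos m (by omega)
    have : b m * b (j + 1) ≤ b m * (q * b j) := by linarith
    exact le_of_mul_le_mul_left this hp
  have hL : ∀ j, j + 1 ≤ m → q * b j ≤ θ ^ 3 * b (j + 1) := by
    intro j hj
    have h := htn j (m - 1) (by omega) (by omega)
    rw [show m - 1 + 1 = m by omega] at h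
    have hp := hbpos m (by omega)
    have hp1 := hbpos (j + 1) (by omega)
    have : b m * (q * b j) ≤ b m * (θ ^ 3 * b (j + 1)) := by
      calc b m * (q * b j) = q * (b j * b m) := by ring
        _ ≤ q * (b (j + 1) * b (m - 1)) := mul_le_mul_of_nonneg_left h hq0.le
        _ = b (j + 1) * (q * b (m - 1)) := by ring
        _ ≤ b (j + 1) * (θ ^ 3 * b m) := mul_le_mul_of_nonneg_left hbm2 hp1.le
        _ = b m * (θ ^ 3 * b (j + 1)) := by ring
    exact le_of_mul_le_mul_left this hp
  -- the three points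
  have hq1' : q * (θ ^ 2 / q) = θ ^ 2 := by field_simp
  have hq2' : q * (θ / q) = θ := by field_simp
  have n1 := MM_near n m (by omega) b hb0 (hbpos m (by omega)) (t := θ ^ 2 / q)
    (by positivity) h0 h1 (near_of_slopes b hb0 n m hq0 h0 (by positivity)
      hq1'.ge (by rw [hq1']; nlinarith) hR hL)
  have n2 := MM_near n m (by omega) b hb0 (hbpos m (by omega)) (t := θ / q)
    (by positivity) h0 h1 (near_of_slopes b hb0 n m hq0 h0 (by positivity)
      (by rw [hq2']; nlinarith) hq2'.le hR hL)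
  have n3 := MM_two n (m + I + 1) (by omega) b hb0 (hbpos _ (by omega)) (by
    intro j hj
    exact hf.mono (hapos j (by omega)) (hinc j hj))
  have hP0 : poly n b ≠ 0 := by
    intro h
    have := congrArg (fun P : ℝ[X] => P.coeff 0) h
    simp [coeff_poly] at this
    exact (hbpos 0 (by omega)).ne' this
  have hPnn : ∀ i, 0 ≤ (poly n b).coeff i := by
    intro i; rw [coeff_poly]; split_ifs
    · exact hb0 i
    · exact le_rfl
  have hPr : ∀ z : ℂ, aeval z (poly n b) = 0 → z.im = 0 := by
    intro z hz; rw [aeval_poly] at hz; exact hRR z hz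
  have ht12 : θ ^ 2 / q ≤ θ / q := div_le_div_of_nonneg_right (by nlinarith) hq0.le
  have ht2 : θ / q ≤ 1 := by rw [div_le_one hq0]; linarith
  have conc := MM_concave (poly n b) hP0 hPnn hPr (t₁ := θ ^ 2 / q) (t₂ := θ / q) (t₃ := 2)
    (by positivity) ht12 (by linarith)
  rw [abs_le] at n1 n2
  rw [← hK] at n1 n2
  push_cast at n3
  set M1 := MM (poly n b) (θ ^ 2 / q)
  set M2 := MM (poly n b) (θ / q)
  set M3 := MM (poly n b) 2
  have e1 : θ / q - θ ^ 2 / q = θ * (1 - θ) / q := by ring
  rw [e1] at conc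
  have e2 : (I : ℝ) - 1 - K ≤ M3 - M2 := by linarith [n2.2]
  have e3 : M2 - M1 ≤ 2 * K := by linarith [n1.1, n2.2]
  have hd : 0 < θ * (1 - θ) / q := by positivity
  have e4 : ((I : ℝ) - 1 - K) * (θ * (1 - θ) / q) ≤ 2 * K * 2 := by
    calc ((I : ℝ) - 1 - K) * (θ * (1 - θ) / q) ≤ (M3 - M2) * (θ * (1 - θ) / q) :=
          mul_le_mul_of_nonneg_right e2 hd.le
      _ ≤ (M2 - M1) * (2 - θ / q) := conc
      _ ≤ 2 * K * (2 - θ / q) := mul_le_mul_of_nonneg_right e3 (by linarith)
      _ ≤ 2 * K * 2 := mul_le_mul_of_nonneg_left (by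
          have : 0 < θ / q := by positivity
          linarith) (by positivity)
  have e5 : 4 * K < ((I : ℝ) - 1 - K) * (θ * (1 - θ) / q) := by
    have h5 : 4 * K * q / (θ * (1 - θ)) < (I : ℝ) - 1 - K := by linarith
    rw [div_lt_iff₀ (by positivity)] at h5
    rw [← mul_div_assoc, lt_div_iff₀ hq0]
    exact h5
  linarith

theorem PresB.convex_ineq (hf : PresB f) {x l : ℝ} (hx : 0 < x) (hl : 1 < l) :
    f x ^ 2 ≤ f (l * x) * f (x / l) := by
  have hlim : Filter.Tendsto (fun θ : ℝ => θ ^ 3 * f x ^ 2) (nhdsWithin 1 (Set.Iio 1))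
      (nhds (1 ^ 3 * f x ^ 2)) := by
    apply Filter.Tendsto.mono_left _ nhdsWithin_le_nhds
    exact (Continuous.tendsto (by fun_prop) 1)
  rw [one_pow, one_mul] at hlim
  refine le_of_tendsto hlim ?_
  have : Set.Ioo (0 : ℝ) 1 ∈ nhdsWithin (1 : ℝ) (Set.Iio 1) :=
    Ioo_mem_nhdsLT (by norm_num)
  filter_upwards [this] with θ hθ
  exact (hf.noJump hx hl hθ.1 hθ.2).le

theorem PresB.power (hf : PresB f) :
    ∃ c p : ℝ, 0 < c ∧ 1 ≤ p ∧ ∀ x, 0 < x → f x = c * x ^ p := by
  set G : ℝ → ℝ := fun s => Real.log (f (Real.exp s)) with hG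
  have fe : ∀ s, 0 < f (Real.exp s) := fun s => hf.pos (Real.exp_pos s)
  have hmono : ∀ a b, a ≤ b → G a ≤ G b := by
    intro a b hab
    exact Real.log_le_log (fe a) (hf.mono (Real.exp_pos a) (Real.exp_le_exp.mpr hab))
  have hcvx : ∀ s h, 0 < h → 2 * G s ≤ G (s + h) + G (s - h) := by
    intro s h hh
    have h1 := hf.convex_ineq (Real.exp_pos s) (l := Real.exp h) (by
      rw [← Real.exp_zero]; exact Real.exp_lt_exp.mpr hh)
    rw [← Real.exp_add, ← Real.exp_sub, add_comm h s] at h1
    have h2 := Real.log_le_log (by have := fe s; positivity) h1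
    rw [Real.log_mul (fe _).ne' (fe _).ne', Real.log_pow] at h2
    push_cast at h2
    exact h2
  have hrc : ∀ s (N : ℕ), 0 < N → (N : ℝ) * (G (s + 1 / N) - G s) ≤ G (s + 1) - G s := by
    intro s N hN
    have hN' : (0 : ℝ) < N := by exact_mod_cast hN
    set h : ℝ := 1 / N with hh
    have hh0 : 0 < h := by positivity
    have hd : ∀ k : ℕ, G (s + h) - G s ≤ G (s + (k + 1 : ℕ) * h) - G (s + k * h) := by
      intro k
      induction k with
      | zero => simp
      | succ k ih =>
        have h1 := hcvx (s + (k + 1 : ℕ) * h) h hh0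
        have e1 : s + (k + 1 : ℕ) * h + h = s + (k + 1 + 1 : ℕ) * h := by push_cast; ring
        have e2 : s + (k + 1 : ℕ) * h - h = s + k * h := by push_cast; ring
        rw [e1, e2] at h1
        linarith
    have hsum : ∀ k : ℕ, (k : ℝ) * (G (s + h) - G s) ≤ G (s + k * h) - G s := by
      intro k
      induction k with
      | zero => simp
      | succ k ih =>
        have := hd k
        have e : ((k + 1 : ℕ) : ℝ) * (G (s + h) - G s) =
          (k : ℝ) * (G (s + h) - G s) + (G (s + h) - G s) := by push_cast; ring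
        rw [e]; linarith
    have := hsum N
    rwa [hh, mul_one_div_cancel hN'.ne', ← hh] at this
  have hmid : ∀ a b, G a + G b ≤ 2 * G ((a + b) / 2) := by
    intro a b
    set c := (a + b) / 2 with hc
    have key : ∀ N : ℕ, 0 < N → (N : ℝ) * (G a + G b - 2 * G c) ≤ 2 * (G (c + 1) - G c) := by
      intro N hN
      have hN' : (0 : ℝ) < N := by exact_mod_cast hN
      have h1 := hf.mid (Real.exp_pos a) (Real.exp_pos b) N
      have e1 : Real.sqrt (Real.exp a * Real.exp b) = Real.exp c := by
        rw [← Real.exp_add, hc, Real.sqrt_eq_iff_mul_self_eq (Real.exp_pos _).le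
          (Real.exp_pos _).le, ← Real.exp_add]
        congr 1; ring
      rw [e1] at h1
      have e2 : Real.exp c * (((N : ℝ) + 2) / (N + 1)) ≤ Real.exp (c + 1 / N) := by
        rw [Real.exp_add]
        apply mul_le_mul_of_nonneg_left _ (Real.exp_pos c).le
        have := Real.add_one_le_exp (1 / (N : ℝ))
        refine le_trans ?_ this
        rw [div_le_iff₀ (by positivity)]
        have : 1 / (N : ℝ) * N = 1 := by field_simp
        have h3 : 0 < 1 / (N : ℝ) := by positivity
        nlinarith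
      have h2 : f (Real.exp c * (((N : ℝ) + 2) / (N + 1))) ≤ f (Real.exp (c + 1 / N)) :=
        hf.mono (by have := Real.exp_pos c; positivity) e2
      have h3 : f (Real.exp a) * f (Real.exp b) ≤ f (Real.exp (c + 1 / N)) ^ 2 :=
        h1.trans (pow_le_pow_left₀ (hf.nonneg _) h2 2)
      have h4 := Real.log_le_log (mul_pos (fe a) (fe b)) h3
      rw [Real.log_mul (fe _).ne' (fe _).ne', Real.log_pow] at h4
      push_cast at h4
      have h5 : G a + G b ≤ 2 * G (c + 1 / N) := h4
      have h6 := hrc c N hN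
      nlinarith
    by_contra hlt
    push Not at hlt
    have hpos : 0 < G a + G b - 2 * G c := by linarith
    obtain ⟨N, hN⟩ := exists_nat_gt (2 * (G (c + 1) - G c) / (G a + G b - 2 * G c))
    rw [div_lt_iff₀ hpos] at hN
    rcases Nat.eq_zero_or_pos N with h0 | h0
    · subst h0
      have := hmono c (c + 1) (by linarith)
      simp at hN
      linarith
    · linarith [key N h0]
  have hJ : ∀ a b, G a + G b = 2 * G ((a + b) / 2) := by
    intro a b
    apply le_antisymm (hmid a b)
    rcases lt_trichotomy a b with h | h | h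
    · have := hcvx ((a + b) / 2) ((b - a) / 2) (by linarith)
      rw [show (a + b) / 2 + (b - a) / 2 = b by ring,
        show (a + b) / 2 - (b - a) / 2 = a by ring] at this
      linarith
    · subst h; rw [show (a + a) / 2 = a by ring]; linarith
    · have := hcvx ((a + b) / 2) ((a - b) / 2) (by linarith)
      rw [show (a + b) / 2 + (a - b) / 2 = a by ring,
        show (a + b) / 2 - (a - b) / 2 = b by ring] at this
      linarith
  have hlin : ∀ s, G s - G 0 = s * (G 1 - G 0) := by
    intro s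
    refine additive_mono_linear (fun s => G s - G 0) ?_ ?_ s
    · intro a b
      have h1 := hJ a b
      have h2 := hJ (a + b) 0
      rw [add_zero] at h2
      linarith
    · intro a b hab
      have := hmono a b hab
      linarith
  refine ⟨Real.exp (G 0), G 1 - G 0, Real.exp_pos _, ?_, ?_⟩
  · -- `p ≥ 1`
    have h1 := hf.two_mul (x := 1) one_pos (b := 2) (by norm_num)
    have h2 := hlin (Real.log 2)
    have f1 := fe 0
    have f2 := fe (Real.log 2)
    have g0 : G 0 = Real.log (f 1) := by simp only [hG, Real.exp_zero]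
    have g2 : G (Real.log 2) = Real.log (f 2) := by
      simp only [hG]; rw [Real.exp_log (by norm_num)]
    rw [Real.exp_zero] at f1
    have h3 := Real.log_le_log (by positivity) h1
    rw [Real.log_mul (by norm_num) f1.ne', ← g0, ← g2] at h3
    have hl2 : 0 < Real.log 2 := Real.log_pos (by norm_num)
    have h4 : Real.log 2 * 1 ≤ Real.log 2 * (G 1 - G 0) := by linarith
    exact le_of_mul_le_mul_left h4 hl2
  · intro x hx
    have h1 := hlin (Real.log x)
    have h2 : G (Real.log x) = Real.log (f x) := by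
      simp only [hG]; rw [Real.exp_log hx]
    have h3 : Real.log (f x) = G 0 + Real.log x * (G 1 - G 0) := by rw [← h2]; linarith
    rw [← Real.exp_log (hf.pos hx), h3, Real.exp_add, Real.rpow_def_of_pos hx]

theorem PresB.rrn_An (hf : PresB f) {c p : ℝ} (hp : 1 ≤ p)
    (h : ∀ x, 0 < x → f x = c * x ^ p) {n : ℕ} (_hn : 0 < n) : RRn n fun j => An n j ^ p := by
  have h1 := hf.bin n one_pos (show (0 : ℝ) ≤ 1 / (n : ℝ) by positivity)
  intro z hz
  apply h1 z
  have e : ∀ j, f (bseq n 1 (1 / (n : ℝ)) j) = c * An n j ^ p := by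
    intro j
    rw [bseq_An]
    rcases (An_nonneg n j).lt_or_eq with h2 | h2
    · exact h _ h2
    · rw [← h2, hf.zero, Real.zero_rpow (by linarith), mul_zero]
  have e2 : ∑ j ∈ Finset.range (n + 1), ((f (bseq n 1 (1 / (n : ℝ)) j) : ℝ) : ℂ) * z ^ j =
      (c : ℂ) * ∑ j ∈ Finset.range (n + 1), ((An n j ^ p : ℝ) : ℂ) * z ^ j := by
    rw [Finset.mul_sum]
    refine Finset.sum_congr rfl fun j _ => ?_
    rw [e j]
    push_cast
    ring
  rw [e2, hz, mul_zero]

theorem PresB.not_one_two (hf : PresB f) {c p : ℝ} (hc : 0 < c) (hp1 : 1 < p) (hp2 : p < 2)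
    (h : ∀ x, 0 < x → f x = c * x ^ p) : False := by
  obtain ⟨C0, hC0⟩ := rr_decay hp1 hp2 fun n hn => hf.rrn_An hp1.le h hn
  set C := max 1 (max C0 (Real.exp 1)) with hC
  have hC1 : 1 ≤ C := le_max_left _ _
  have hC2 : C0 ≤ C := (le_max_left _ _).trans (le_max_right _ _)
  have hC3 : Real.exp 1 ≤ C := (le_max_right _ _).trans (le_max_right _ _)
  refine contradiction_aux (ρ := fun τ => rr p (Real.exp τ)) (C := C) (α := 2 - p)
    (G := Real.Gamma (2 - p)) ((rr_continuous hp1.le).comp Real.continuous_exp) hC1 ?_ ?_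
    (by linarith) (by linarith) (Real.Gamma_pos_of_pos (by linarith)) ?_
  · intro τ hτ
    have h1 := rr_near_one hp1.le (Real.exp_pos τ).le (x := Real.exp τ) (by
      rw [← Real.exp_zero]; exact Real.exp_le_exp.mpr hτ)
    exact h1.trans (mul_le_mul_of_nonneg_right hC3 (Real.exp_pos τ).le)
  · intro τ hτ
    have h1 := hC0 (Real.exp τ) (by rw [← Real.exp_zero]; exact Real.exp_le_exp.mpr hτ)
    rw [← Real.exp_nat_mul] at h1
    push_cast at h1
    have h2 : |rr p (Real.exp τ)| * Real.exp (2 * τ) ≤ C := h1.trans hC2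
    rw [Real.exp_neg, ← div_eq_mul_inv, le_div_iff₀ (Real.exp_pos _)]
    exact h2
  · intro L
    have h1 := identity hp1 hp2 (Real.exp_pos L)
    have e1 : ∀ t : ℝ, Real.exp L * Real.exp (-t) = Real.exp (L - t) := by
      intro t; rw [← Real.exp_add]; congr 1
    simp only [e1] at h1
    rw [show (2 - p) - 1 = 1 - p by ring]
    exact h1

/-- Every restricted preserver is `c x^p` with `c > 0` and `p = 1` or `p ≥ 2`. -/
theorem PresB.eq_power (hf : PresB f) :
    ∃ c p : ℝ, 0 < c ∧ (p = 1 ∨ 2 ≤ p) ∧ ∀ x : ℝ, 0 ≤ x → f x = c * x ^ p := by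
  obtain ⟨c, p, hc, hp, h⟩ := hf.power
  have hp' : p = 1 ∨ 2 ≤ p := by
    rcases hp.lt_or_eq with h1 | h1
    · right
      by_contra h2
      push Not at h2
      exact hf.not_one_two hc h1 h2 h
    · left; exact h1.symm
  refine ⟨c, p, hc, hp', ?_⟩
  intro x hx
  rcases hx.eq_or_lt with h1 | h1
  · rw [← h1, hf.zero, Real.zero_rpow (by linarith : p ≠ 0), mul_zero]
  · exact h x h1

end Pool.Agent.Lib.MP_f91407_an
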