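import Pool.Agent.Lib.MP_f91407_an.Bin.Defs
import Pool.Agent.Lib.MP_f91407_an.Mg.G028
import Pool.Agent.Lib.MP_f91407_an.Bin.Nec

/-!
# Real powers `x^p`, `p = 1` or `p ≥ 2`, and the polynomials `c (1 + r z)(1 + μ z)^m`
-/

namespace Pool.Agent.Lib.MP_f91407_an

open NNReal Polynomial

theorem linPow_zero (c r μ : ℝ≥0) (m : ℕ) : linPow c r μ m 0 = c := by
  unfold linPow
  rw [mul_coeff_zero, mul_coeff_zero, coeff_C_zero, coeff_add, coeff_one_zero, mul_coeff_zero,
    coeff_X_zero, mul_zero, add_zero, mul_one, coeff_zero_eq_eval_zero, eval_pow]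
  simp

theorem linPow_eq (c r μ : ℝ≥0) (m j : ℕ) : linPow c r μ m j =
    c * ((m.choose j : ℝ≥0) * μ ^ j +
      r * (if j = 0 then 0 else (m.choose (j - 1) : ℝ≥0) * μ ^ (j - 1))) := by
  have hQ : ∀ i, ((1 + C μ * X) ^ m : ℝ≥0[X]).coeff i = (m.choose i : ℝ≥0) * μ ^ i := by
    intro i
    have h1 : ((1 + C μ * X) ^ m : ℝ≥0[X]) = ((1 + X) ^ m : ℝ≥0[X]).comp (C μ * X) := by simp
    rw [h1, comp_C_mul_X_coeff, coeff_one_add_X_pow]
  unfold linPow
  have h2 : (C c * (1 + C r * X) * (1 + C μ * X) ^ m : ℝ≥0[X]) =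
      C c * ((1 + C μ * X) ^ m + C r * ((1 + C μ * X) ^ m * X)) := by ring
  rw [h2, coeff_C_mul, coeff_add, coeff_C_mul, hQ]
  cases j with
  | zero => simp
  | succ j => rw [coeff_mul_X, hQ]; simp

theorem linPow_eq_zero (c r μ : ℝ≥0) {m j : ℕ} (h : m + 1 < j) : linPow c r μ m j = 0 := by
  rw [linPow_eq, if_neg (by omega), Nat.choose_eq_zero_of_lt (by omega),
    Nat.choose_eq_zero_of_lt (by omega)]
  simp

/-- Sequences with nonnegative entries, positive first entry, finitely many nonzero entries, and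
a real-rooted generating polynomial. -/
def PFs (a : ℕ → ℝ) : Prop :=
  (∀ j, 0 ≤ a j) ∧ 0 < a 0 ∧ ∃ N, (∀ j, N < j → a j = 0) ∧ RRn N a

theorem PFs.mul {a b : ℕ → ℝ} (ha : PFs a) (hb : PFs b) : PFs fun j => a j * b j := by
  obtain ⟨ha1, ha2, N, ha3, ha4⟩ := ha
  obtain ⟨hb1, hb2, M, hb3, hb4⟩ := hb
  refine ⟨fun j => mul_nonneg (ha1 j) (hb1 j), mul_pos ha2 hb2, max N M, ?_, ?_⟩
  · intro j hj
    beta_reduce
    rw [ha3 j (lt_of_le_of_lt (le_max_left _ _) hj), zero_mul]
  · exact RRn.malo ha1 ha2 ((RRn_iff_of_le (le_max_left _ _) ha3).mpr ha4)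
      hb1 hb2 ((RRn_iff_of_le (le_max_right _ _) hb3).mpr hb4)

theorem PFs.rrn {a : ℕ → ℝ} (ha : PFs a) {d : ℕ} (hd : ∀ j, d < j → a j = 0) : RRn d a := by
  obtain ⟨_, _, N, ha3, ha4⟩ := ha
  rcases le_total N d with h | h
  · exact (RRn_iff_of_le h ha3).mpr ha4
  · exact (RRn_iff_of_le h hd).mp ha4

theorem RRn.scale {n : ℕ} {a : ℕ → ℝ} (h : RRn n a) {k : ℝ} (hk : 0 < k) :
    RRn n fun j => k ^ j * a j := by
  intro z hz
  have h1 := h (k * z) (by
    rw [← hz]
    refine Finset.sum_congr rfl fun j _ => ?_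
    push_cast
    rw [mul_pow]
    ring)
  rw [Complex.im_ofReal_mul] at h1
  exact (mul_eq_zero.mp h1).resolve_left hk.ne'

theorem PFs.scale {a : ℕ → ℝ} (ha : PFs a) {c k : ℝ} (hc : 0 < c) (hk : 0 < k) :
    PFs fun j => c * (k ^ j * a j) := by
  obtain ⟨ha1, ha2, N, ha3, ha4⟩ := ha
  refine ⟨fun j => by have := ha1 j; positivity, by simpa using mul_pos hc ha2, N, ?_, ?_⟩
  · intro j hj; beta_reduce; rw [ha3 j hj]; simp
  · exact (ha4.scale hk).smul hc.ne'

theorem cf_pf_one (d : ℕ) {r : ℝ} (hr : 0 ≤ r) : PFs (cf d r) := by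
  refine ⟨cf_nonneg d hr, by rw [cf_zero]; exact one_pos, d + 1, ?_, ?_⟩
  · intro j hj
    cases j with
    | zero => omega
    | succ j =>
      rw [cf_succ, Nat.choose_eq_zero_of_lt (by omega), Nat.choose_eq_zero_of_lt (by omega)]
      simp
  · intro z hz
    have h1 : ∑ j ∈ Finset.range (d + 1 + 1), ((cf d r j : ℝ) : ℂ) * z ^ j =
        (1 + (r : ℂ) * z) * (1 + z) ^ d := by
      rw [add_comm (1 : ℂ) z, add_pow]
      simp only [one_pow, mul_one]
      rw [Finset.sum_range_succ' _ (d + 1), cf_zero]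
      simp only [cf_succ]
      have e1 : (1 + (r : ℂ) * z) * ∑ m ∈ Finset.range (d + 1), z ^ m * (d.choose m : ℂ) =
          (∑ m ∈ Finset.range (d + 1), z ^ m * (d.choose m : ℂ)) +
            ∑ m ∈ Finset.range (d + 1), (r : ℂ) * (d.choose m : ℂ) * z ^ (m + 1) := by
        rw [add_mul, one_mul, Finset.mul_sum]
        congr 1
        refine Finset.sum_congr rfl fun m _ => ?_
        ring
      have e2 : ∑ m ∈ Finset.range (d + 1), z ^ m * (d.choose m : ℂ) =
          (∑ m ∈ Finset.range (d + 1), (d.choose (m + 1) : ℂ) * z ^ (m + 1)) + 1 := by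
        rw [Finset.sum_range_succ']
        rw [Finset.sum_range_succ (fun m => (d.choose (m + 1) : ℂ) * z ^ (m + 1)) d,
          Nat.choose_eq_zero_of_lt (Nat.lt_succ_self d)]
        simp [mul_comm]
      rw [e1, e2]
      have e3 : ∀ j, (((d.choose (j + 1) : ℝ) + r * (d.choose j : ℝ) : ℝ) : ℂ) * z ^ (j + 1) =
          (d.choose (j + 1) : ℂ) * z ^ (j + 1) + (r : ℂ) * (d.choose j : ℂ) * z ^ (j + 1) := by
        intro j; push_cast; ring
      simp only [e3, Finset.sum_add_distrib]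
      push_cast
      ring
    rw [h1] at hz
    rcases mul_eq_zero.mp hz with h | h
    · have h2 := congrArg Complex.im h
      have hr0 : r ≠ 0 := by rintro rfl; simp at h
      simp at h2
      exact h2.resolve_left hr0
    · have h2 : (1 : ℂ) + z = 0 := eq_zero_of_pow_eq_zero h
      have h3 := congrArg Complex.im h2
      simpa using h3

theorem cf_pf_step {d : ℕ} {r p : ℝ} (hr : 0 ≤ r) (hp : 0 < p)
    (h : PFs fun n => cf d r n ^ p) : PFs fun n => cf d r n ^ (p + 1) := by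
  have h1 := h.mul (cf_pf_one d hr)
  have e : (fun n => cf d r n ^ (p + 1)) = fun n => cf d r n ^ p * cf d r n := by
    funext n
    rw [Real.rpow_add_one' (cf_nonneg d hr n) (by linarith)]
  rw [e]
  exact h1

theorem cf_pf_nat {d : ℕ} {r p : ℝ} (hr : 0 ≤ r) (hp : 0 < p)
    (h : PFs fun n => cf d r n ^ p) (k : ℕ) : PFs fun n => cf d r n ^ (p + k) := by
  induction k with
  | zero => simpa using h
  | succ k ih =>
    have h1 := cf_pf_step hr (by positivity) ih
    have e : p + (k : ℝ) + 1 = p + ((k + 1 : ℕ) : ℝ) := by push_cast; ring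
    rwa [e] at h1

theorem cf_pf (d : ℕ) {r p : ℝ} (hr : 0 ≤ r) (hp : p = 1 ∨ 2 ≤ p) :
    PFs fun n => cf d r n ^ p := by
  have hone : PFs fun n => cf d r n ^ (1 : ℝ) := by
    simpa using cf_pf_one d hr
  rcases hp with hp | hp
  · rw [hp]; exact hone
  · set k := ⌊p - 2⌋₊ with hk
    have hk1 : (k : ℝ) ≤ p - 2 := Nat.floor_le (by linarith)
    have hk2 : p - 2 < k + 1 := Nat.lt_floor_add_one _
    rcases hk1.lt_or_eq with h | h
    · have hs : p - 2 - k ∈ Set.Ioo (0 : ℝ) 1 := ⟨by linarith, by linarith⟩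
      have h1 : PFs fun n => cf d r n ^ (2 + (p - 2 - k)) := by
        refine ⟨fun j => Real.rpow_nonneg (cf_nonneg d hr j) _, ?_, d + 1, ?_, cf_all hs d hr⟩
        · beta_reduce; rw [cf_zero, Real.one_rpow]; exact one_pos
        · intro j hj
          have h2 : cf d r j = 0 := by
            cases j with
            | zero => omega
            | succ j =>
              rw [cf_succ, Nat.choose_eq_zero_of_lt (by omega),
                Nat.choose_eq_zero_of_lt (by omega)]
              simp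
          beta_reduce
          rw [h2, Real.zero_rpow (by linarith [hs.1])]
      have h2 := cf_pf_nat hr (by linarith [hs.1]) h1 k
      have e : 2 + (p - 2 - k) + (k : ℝ) = p := by ring
      rwa [e] at h2
    · have h2 := cf_pf_nat hr one_pos hone (k + 1)
      have e : (1 : ℝ) + ((k + 1 : ℕ) : ℝ) = p := by push_cast; linarith
      rwa [e] at h2

theorem linPow_pf (c r μ : ℝ≥0) (m : ℕ) (hc : 0 < c) {p : ℝ} (hp : p = 1 ∨ 2 ≤ p) :
    PFs fun j => ((linPow c r μ m j : ℝ≥0) : ℝ) ^ p := by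
  have hp0 : 0 < p := by rcases hp with h | h <;> linarith
  have hc' : (0 : ℝ) < c := by exact_mod_cast hc
  rcases eq_or_ne μ 0 with hμ | hμ
  · subst hμ
    have e0 : linPow c r 0 m 0 = c := linPow_zero _ _ _ _
    have e1 : linPow c r 0 m 1 = c * r := by rw [linPow_eq]; simp
    have e2 : ∀ j, 1 < j → linPow c r 0 m j = 0 := by
      intro j hj
      rw [linPow_eq, if_neg (by omega), zero_pow (by omega), zero_pow (by omega)]
      simp
    refine ⟨fun j => Real.rpow_nonneg (NNReal.coe_nonneg _) _, ?_, 1, ?_, ?_⟩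
    · beta_reduce; rw [e0]; exact Real.rpow_pos_of_pos hc' _
    · intro j hj
      beta_reduce
      rw [e2 j hj, NNReal.coe_zero, Real.zero_rpow hp0.ne']
    · intro z hz
      rw [Finset.sum_range_succ, Finset.sum_range_one] at hz
      beta_reduce at hz
      rw [e0, e1] at hz
      have h2 := congrArg Complex.im hz
      simp only [pow_zero, mul_one, pow_one, Complex.add_im, Complex.ofReal_im, zero_add,
        Complex.im_ofReal_mul, Complex.zero_im] at h2
      rcases mul_eq_zero.mp h2 with h | h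
      · exfalso
        rw [h] at hz
        simp only [pow_zero, mul_one, Complex.ofReal_zero, zero_mul, add_zero] at hz
        have : ((c : ℝ) ^ p) = 0 := by exact_mod_cast hz
        exact (Real.rpow_pos_of_pos hc' p).ne' this
      · exact h
  · have hμ' : (0 : ℝ) < μ := by exact_mod_cast pos_iff_ne_zero.mpr hμ
    have hr : (0 : ℝ) ≤ (r : ℝ) / μ := by positivity
    have h1 := (cf_pf m hr hp).scale (Real.rpow_pos_of_pos hc' p) (Real.rpow_pos_of_pos hμ' p)
    have e : (fun j => ((linPow c r μ m j : ℝ≥0) : ℝ) ^ p) =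
        fun j => (c : ℝ) ^ p * (((μ : ℝ) ^ p) ^ j * cf m ((r : ℝ) / μ) j ^ p) := by
      funext j
      have e1 : ((linPow c r μ m j : ℝ≥0) : ℝ) = c * ((μ : ℝ) ^ j * cf m ((r : ℝ) / μ) j) := by
        rw [linPow_eq]
        unfold cf
        cases j with
        | zero => simp
        | succ j =>
          simp only [Nat.add_eq_zero_iff, one_ne_zero, and_false, if_false, Nat.add_sub_cancel]
          push_cast
          rw [pow_succ]
          field_simp
      rw [e1, Real.mul_rpow hc'.le (mul_nonneg (by positivity) (cf_nonneg m hr j)),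
        Real.mul_rpow (by positivity) (cf_nonneg m hr j), ← Real.rpow_natCast, ← Real.rpow_mul hμ'.le,
        ← Real.rpow_natCast, ← Real.rpow_mul hμ'.le, mul_comm (j : ℝ) p]
    rw [e]
    exact h1

theorem Cls.pf {a : ℕ → ℝ≥0} (ha : Cls a) : ∀ p : ℝ, (p = 1 ∨ 2 ≤ p) →
    PFs fun j => ((a j : ℝ≥0) : ℝ) ^ p := by
  induction ha with
  | base c r μ m hc => intro p hp; exact linPow_pf c r μ m hc hp
  | mul a b _ _ iha ihb =>
    intro p hp
    have h1 := (iha p hp).mul (ihb p hp)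
    have e : (fun j => (((a j * b j : ℝ≥0) : ℝ≥0) : ℝ) ^ p) =
        fun j => ((a j : ℝ≥0) : ℝ) ^ p * ((b j : ℝ≥0) : ℝ) ^ p := by
      funext j
      rw [NNReal.coe_mul, Real.mul_rpow (NNReal.coe_nonneg _) (NNReal.coe_nonneg _)]
    rw [e]
    exact h1
  | pow a q hq _ iha =>
    intro p hp
    have hp1 : 1 ≤ p := by rcases hp with h | h <;> linarith
    have h1 := iha (q * p) (Or.inr (by nlinarith))
    have e : (fun j => (((a j ^ q : ℝ≥0) : ℝ≥0) : ℝ) ^ p) =
        fun j => ((a j : ℝ≥0) : ℝ) ^ (q * p) := by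
      funext j
      rw [NNReal.coe_rpow, ← Real.rpow_mul (NNReal.coe_nonneg _)]
    rw [e]
    exact h1

theorem inP_of_RRn {F : ℝ≥0 → ℝ≥0} {d : ℕ} {a : ℕ → ℝ≥0} (h : RRn d fun j => ((F (a j) : ℝ≥0) : ℝ)) :
    InP d fun j => F (a j) := by
  intro z hz
  apply h z
  rw [Finset.sum_range]
  exact hz

theorem RRn_of_inP {F : ℝ≥0 → ℝ≥0} {d : ℕ} {a : ℕ → ℝ≥0} (h : InP d fun j => F (a j)) :
    RRn d fun j => ((F (a j) : ℝ≥0) : ℝ) := by
  intro z hz
  apply h z
  rw [Finset.sum_range] at hz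
  exact hz

/-- Sufficiency. -/
theorem power_preserves {F : ℝ≥0 → ℝ≥0} {c p : ℝ} (hc : 0 < c) (hp : p = 1 ∨ 2 ≤ p)
    (hF : ∀ x : ℝ≥0, ((F x : ℝ≥0) : ℝ) = c * (x : ℝ) ^ p) {a : ℕ → ℝ≥0} (ha : Cls a) {d : ℕ}
    (hd : ∀ j, d < j → a j = 0) : InP d fun j => F (a j) := by
  have hp0 : 0 < p := by rcases hp with h | h <;> linarith
  apply inP_of_RRn
  have h1 : RRn d fun j => ((a j : ℝ≥0) : ℝ) ^ p := (ha.pf p hp).rrn fun j hj => by
    rw [hd j hj, NNReal.coe_zero, Real.zero_rpow hp0.ne']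
  have h2 := h1.smul hc.ne'
  simpa only [hF] using h2

/-- Necessity: only the polynomials `c (1 + r z)(1 + μ z)^m` are used. -/
theorem presB_of {F : ℝ≥0 → ℝ≥0} (hF0 : F 0 = 0)
    (h : ∀ (c r μ : ℝ≥0) (m : ℕ), 0 < c → InP (m + 1) fun j => F (linPow c r μ m j)) :
    PresB fun x => ((F x.toNNReal : ℝ≥0) : ℝ) := by
  refine ⟨by simp [hF0], fun x => NNReal.coe_nonneg _, ?_, ?_⟩
  · intro n c μ hc hμ
    have h1 := RRn_of_inP (h c.toNNReal 0 μ.toNNReal n (Real.toNNReal_pos.mpr hc))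
    have e : (fun j => ((F (linPow c.toNNReal 0 μ.toNNReal n j) : ℝ≥0) : ℝ)) =
        fun j => ((F (bseq n c μ j).toNNReal : ℝ≥0) : ℝ) := by
      funext j
      have e1 : linPow c.toNNReal 0 μ.toNNReal n j = (bseq n c μ j).toNNReal := by
        rw [linPow_eq]
        apply NNReal.coe_injective
        rw [Real.coe_toNNReal _ (bseq_nonneg hc.le hμ j)]
        unfold bseq
        push_cast
        rw [Real.coe_toNNReal _ hc.le, Real.coe_toNNReal _ hμ]
        ring
      rw [e1]
    rw [e] at h1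
    refine (RRn_iff_of_le (Nat.le_succ n) ?_).mp h1
    intro j hj
    have : bseq n c μ j = 0 := by
      unfold bseq; rw [Nat.choose_eq_zero_of_lt hj]; simp
    rw [this]
    simp [hF0]
  · intro x b w hx hb hw hdisc
    set D := b ^ 2 - 4 * x * w with hD
    have hD0 : 0 ≤ D := by linarith
    set R := Real.sqrt D with hR
    have hR0 : 0 ≤ R := Real.sqrt_nonneg _
    have hR2 : R ^ 2 = D := Real.sq_sqrt hD0
    have hRb : R ≤ b := by
      apply le_of_sq_le_sq _ hb.le
      rw [hR2, hD]; nlinarith [mul_pos hx hw]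
    have h1 := RRn_of_inP (h x.toNNReal ((b + R) / (2 * x)).toNNReal ((b - R) / (2 * x)).toNNReal 1
      (Real.toNNReal_pos.mpr hx))
    refine h1.of_eqOn ?_
    intro j hj
    have p1 : 0 ≤ (b + R) / (2 * x) := by positivity
    have p2 : 0 ≤ (b - R) / (2 * x) := div_nonneg (by linarith) (by positivity)
    have e : linPow x.toNNReal ((b + R) / (2 * x)).toNNReal ((b - R) / (2 * x)).toNNReal 1 j =
        (if j = 0 then x else if j = 1 then b else w).toNNReal := by
      rw [linPow_eq]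
      apply NNReal.coe_injective
      rw [Real.coe_toNNReal _ (by split_ifs <;> positivity)]
      rcases j with _ | _ | _ | j
      · simp [hx.le]
      · simp only [zero_add, Nat.choose_self, Nat.cast_one, one_mul, pow_one, one_ne_zero, if_false,
          Nat.sub_self, Nat.choose_zero_right, pow_zero, mul_one, if_true]
        push_cast
        rw [Real.coe_toNNReal _ hx.le, Real.coe_toNNReal _ p1, Real.coe_toNNReal _ p2]
        field_simp
        ring
      · simp only [zero_add, Nat.reduceAdd, OfNat.ofNat_ne_zero, OfNat.ofNat_ne_one, if_false,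
          Nat.choose_succ_self, Nat.cast_zero, zero_mul, Nat.reduceSub, Nat.choose_self,
          Nat.cast_one, one_mul, pow_one]
        push_cast
        rw [Real.coe_toNNReal _ hx.le, Real.coe_toNNReal _ p1, Real.coe_toNNReal _ p2]
        have : (b + R) * (b - R) = 4 * x * w := by nlinarith
        field_simp
        nlinarith
      · omega
    rw [e]

theorem main_tfae (F : ℝ≥0 → ℝ≥0) (hF : F 0 = 0) : List.TFAE
    [∀ (c r μ : ℝ≥0) (m : ℕ), 0 < c → InP (m + 1) fun j => F (linPow c r μ m j),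
     ∀ a : ℕ → ℝ≥0, Cls a → ∀ d : ℕ, (∀ j, d < j → a j = 0) → InP d fun j => F (a j),
     ∃ c p : ℝ, 0 < c ∧ (p = 1 ∨ 2 ≤ p) ∧ ∀ x : ℝ≥0, ((F x : ℝ≥0) : ℝ) = c * (x : ℝ) ^ p] := by
  tfae_have 1 → 3 := by
    intro h
    obtain ⟨c, p, hc, hp, hx⟩ := (presB_of hF h).eq_power
    refine ⟨c, p, hc, hp, fun x => ?_⟩
    have := hx x (NNReal.coe_nonneg _)
    simpa using this
  tfae_have 3 → 2 := by
    rintro ⟨c, p, hc, hp, hx⟩ a ha d hd
    exact power_preserves hc hp hx ha hd
  tfae_have 2 → 1 := by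
    intro h c r μ m hc
    exact h _ (Cls.base c r μ m hc) (m + 1) fun j hj => linPow_eq_zero c r μ hj
  tfae_finish

end Pool.Agent.Lib.MP_f91407_an
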